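import Pool.Agent.H567R2.MOF.M3
import Pool.Agent.H567R2.MQ.Defs

/-! # NB: the affine skew product with non-commuting linear parts preserves the measure -/

namespace H567MM

open MeasureTheory Filter Topology

section
variable {R M : Type*} [CommRing R] [AddCommGroup M] [Module R M]

theorem NBq_aux_apply (g : M ≃ₗ[R] M) (y : Dual M) (m : M) : nact g y m = y (g m) := rfl

theorem NBq_aux_meas (g : M ≃ₗ[R] M) : Measurable (nact (M := M) g) := by
  apply SP_aux_meas
  intro m
  exact SP_aux_eval (g m)

theorem NBq_aux_mul (g : M ≃ₗ[R] M) (y z : Dual M) : nact g (y * z) = nact g y * nact g z := by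
  ext m
  rw [AddChar.mul_apply, NBq_aux_apply, NBq_aux_apply, NBq_aux_apply, AddChar.mul_apply]

theorem NBq_aux_inv (g : M ≃ₗ[R] M) (y : Dual M) : nact g (nact g.symm y) = y := by
  ext m
  rw [NBq_aux_apply, NBq_aux_apply, LinearEquiv.symm_apply_apply]

theorem NBq_aux_haar (g : M ≃ₗ[R] M) {ν : Measure (Dual M)} (hν : IsHaarProb ν) :
    Measure.map (nact g) ν = ν := by
  refine SP_aux_unique ?_ hν
  obtain ⟨hp, hi⟩ := hν
  refine ⟨Measure.isProbabilityMeasure_map (NBq_aux_meas g).aemeasurable, ?_⟩
  intro z
  have hz : Measurable (fun y : Dual M => z * y) :=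
    SP_aux_mul.comp (measurable_const.prodMk measurable_id)
  refine ⟨hz, ?_⟩
  rw [Measure.map_map hz (NBq_aux_meas g)]
  have h1 : (fun y : Dual M => z * y) ∘ nact g = nact g ∘ (fun y => nact g.symm z * y) := by
    funext y
    simp only [Function.comp_apply, NBq_aux_mul, NBq_aux_inv]
  rw [h1, ← Measure.map_map (NBq_aux_meas g) (hi (nact g.symm z)).measurable,
    (hi (nact g.symm z)).map_eq]

theorem NBq_aux_skew_meas {X : Type*} [MeasurableSpace X] [Countable M] (φ : X → (M ≃ₗ[R] M))
    (hφ : ∀ v v' : M, MeasurableSet {x | φ x v = v'}) :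
    Measurable (Function.uncurry (fun (x : X) (y : Dual M) => nact (φ x) y)) := by
  apply SP_aux_meas
  intro m
  let _ : MeasurableSpace M := ⊤
  have h1 : Measurable (fun p : M × (X × Dual M) => ((p.2.2 p.1 : Circle) : ℂ)) := by
    apply measurable_from_prod_countable_right
    intro m'
    exact (SP_aux_eval m').comp measurable_snd
  have h2 : Measurable (fun z : X × Dual M => φ z.1 m) := by
    apply measurable_to_countable'
    intro m'
    exact measurable_fst (hφ m m')
  exact h1.comp (h2.prodMk measurable_id)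

end

theorem naskew_mp {X R M : Type*} [MeasurableSpace X] (μ : Measure X)
    [IsProbabilityMeasure μ] (S : X → X) (hS : MeasurePreserving S μ μ)
    [CommRing R] [AddCommGroup M] [Module R M] [Countable M] (φ : X → (M ≃ₗ[R] M))
    (hφ : ∀ m m' : M, MeasurableSet {x | φ x m = m'}) (α : X → Dual M)
    (hα : Measurable α) (ν : Measure (Dual M)) (hν : IsHaarProb ν) :
    MeasurePreserving (naskew S φ α) (μ.prod ν) (μ.prod ν) := by
  have := hν.1
  have hm : Measurable (Function.uncurry (fun (x : X) (y : Dual M) => α x * nact (φ x) y)) :=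
    SP_aux_mul.comp ((hα.comp measurable_fst).prodMk (NBq_aux_skew_meas φ hφ))
  refine hS.skew_product hm (Eventually.of_forall fun x => ?_)
  have h1 : (fun y : Dual M => α x * nact (φ x) y) = (fun y => α x * y) ∘ nact (φ x) := rfl
  show Measure.map (fun y : Dual M => α x * nact (φ x) y) ν = ν
  rw [h1, ← Measure.map_map (hν.2 (α x)).measurable (NBq_aux_meas (φ x)),
    NBq_aux_haar (φ x) hν, (hν.2 (α x)).map_eq]

end H567MM
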