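import Pool.Agent.H567R2.MOF.M3
import Pool.Agent.H567R2.MQ.Defs
import Pool.Agent.H567R2.MQF.NA
import Pool.Agent.H567R2.MQF.NB
import Pool.Agent.H567R2.MQF.ND

namespace H567MM

open MeasureTheory Filter Topology

theorem NKq_aux_ten_meas {X M : Type*} [MeasurableSpace X] [AddCommGroup M] (A : Set X)
    (hA : MeasurableSet A) (m : M) : Measurable (ten A m) := by
  unfold ten
  refine Measurable.mul ?_ ?_
  · exact (measurable_const.indicator hA).comp measurable_fst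
  · have h1 : Measurable (fun (y : Dual M) (m : M) => (y m : ℂ)) := comap_measurable _
    have h2 : Measurable (fun (y : Dual M) => ((y m : Circle) : ℂ)) :=
      (measurable_pi_apply m).comp h1
    exact h2.comp measurable_snd

theorem NKq_aux_ten_le {X M : Type*} [AddCommGroup M] (A : Set X) (m : M) (z : X × Dual M) :
    ‖ten A m z‖ ≤ 1 := by
  unfold ten
  rw [norm_mul, Circle.norm_coe, mul_one]
  by_cases h : z.1 ∈ A
  · simp [Set.indicator_of_mem h]
  · simp [Set.indicator_of_notMem h]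

theorem NKq_aux_prod_le {s : ℕ} (g : Fin s → ℂ) (h : ∀ j, ‖g j‖ ≤ 1) : ‖∏ j, g j‖ ≤ 1 := by
  rw [norm_prod]
  exact Finset.prod_le_one (fun j _ => norm_nonneg _) (fun j _ => h j)

theorem NKq_aux_fst {X R M : Type*} [CommRing R] [AddCommGroup M] [Module R M] (S : X → X)
    (φ : X → (M ≃ₗ[R] M)) (α : X → Dual M) (n : ℕ) (z : X × Dual M) :
    ((naskew S φ α)^[n] z).1 = S^[n] z.1 := by
  obtain ⟨x, y⟩ := z
  rw [naskew_iterate]

theorem NKq_aux_jensen {Z : Type*} [MeasurableSpace Z] (ρ : Measure Z) [IsProbabilityMeasure ρ]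
    (F : Z → ℂ) (hF : Integrable F ρ) (hF2 : Integrable (fun z => ‖F z‖ ^ 2) ρ) :
    ‖∫ z, F z ∂ρ‖ ^ 2 ≤ ∫ z, ‖F z‖ ^ 2 ∂ρ := by
  have h1 : ‖∫ z, F z ∂ρ‖ ≤ ∫ z, ‖F z‖ ∂ρ := norm_integral_le_integral_norm _
  set c := ∫ z, ‖F z‖ ∂ρ with hc
  have h2 : 0 ≤ ∫ z, (‖F z‖ - c) ^ 2 ∂ρ := integral_nonneg (fun z => sq_nonneg _)
  have h3 : ∫ z, (‖F z‖ - c) ^ 2 ∂ρ = ∫ z, ‖F z‖ ^ 2 ∂ρ - c ^ 2 := by
    have : ∀ z, (‖F z‖ - c) ^ 2 = ‖F z‖ ^ 2 - 2 * c * ‖F z‖ + c ^ 2 := fun z => by ring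
    simp_rw [this]
    have e1 : ∫ z, ((‖F z‖ ^ 2 - 2 * c * ‖F z‖) + c ^ 2) ∂ρ =
        ∫ z, (‖F z‖ ^ 2 - 2 * c * ‖F z‖) ∂ρ + ∫ _z, c ^ 2 ∂ρ :=
      integral_add (hF2.sub (hF.norm.const_mul (2 * c))) (integrable_const _)
    have e2 : ∫ z, (‖F z‖ ^ 2 - 2 * c * ‖F z‖) ∂ρ =
        ∫ z, ‖F z‖ ^ 2 ∂ρ - ∫ z, 2 * c * ‖F z‖ ∂ρ :=
      integral_sub hF2 (hF.norm.const_mul (2 * c))
    have e3 : ∫ z, 2 * c * ‖F z‖ ∂ρ = 2 * c * c := by
      rw [integral_const_mul]
    have e4 : ∫ _z : Z, c ^ 2 ∂ρ = c ^ 2 := by simp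
    rw [e1, e2, e3, e4]
    ring
  have h4 : ‖∫ z, F z ∂ρ‖ ^ 2 ≤ c ^ 2 := by
    gcongr
  linarith

/-- the third condition of `CFam` iterated -/
theorem NKq_iter {X R M : Type*} [MeasurableSpace X] (μ : Measure X)
    [IsProbabilityMeasure μ] (S : X → X) (hS : MeasurePreserving S μ μ)
    [CommRing R] [AddCommGroup M] [Module R M] (φ : X → (M ≃ₗ[R] M)) (B : M → Set X)
    (h : ∀ᵐ x ∂μ, ∀ m, (x ∈ B (φ x m) ↔ S x ∈ B m)) :
    ∀ᵐ x ∂μ, ∀ (t : ℕ) (m : M), (S^[t] x ∈ B m ↔ x ∈ B (coc S φ t x m)) := by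
  have h1 : ∀ᵐ x ∂μ, ∀ t : ℕ, ∀ m, (S^[t] x ∈ B (φ (S^[t] x) m) ↔ S (S^[t] x) ∈ B m) := by
    rw [ae_all_iff]
    intro t
    exact (hS.iterate t).quasiMeasurePreserving.ae h
  filter_upwards [h1] with x hx
  intro t
  induction t with
  | zero => intro m; exact Iff.rfl
  | succ t ih =>
    intro m
    rw [Function.iterate_succ_apply', ← hx t m, ih]
    rfl

theorem nkey_ineq {X R M : Type*} [MeasurableSpace X] (μ : Measure X)
    [IsProbabilityMeasure μ] (S : X → X) (hS : MeasurePreserving S μ μ)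
    [CommRing R] [AddCommGroup M] [Module R M] [Countable M] (φ : X → (M ≃ₗ[R] M))
    (hφ : ∀ m m' : M, MeasurableSet {x | φ x m = m'}) (α : X → Dual M)
    (hα : Measurable α) (ν : Measure (Dual M)) (hν : IsHaarProb ν) (L : X → Submodule R M)
    (hL : ∀ m : M, MeasurableSet {x | m ∈ L x}) (B : M → Set X) (f : ℕ)
    (hB : CFam μ S φ L B f) {s : ℕ} (A : Fin s → Set X)
    (hA : ∀ j, MeasurableSet (A j)) (m : Fin s → M) (hAB : ∀ j, A j ⊆ B (m j))
    (n : Fin s → ℕ) (N : ℕ) :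
    ‖∫ z, ∏ j, ten (A j) (m j) ((naskew S φ α)^[n j] z) ∂(μ.prod ν)‖ ^ 2 * (N : ℝ) ^ 2 ≤
      (f : ℝ) ^ s * ‖∑ t ∈ Finset.range N, ∑ t' ∈ Finset.range N,
        ∫ z, ∏ j, nth S φ α L (A j) (m j) t t' ((naskew S φ α)^[n j] z) ∂(μ.prod ν)‖ := by
  classical
  have : IsProbabilityMeasure ν := hν.1
  have hT : MeasurePreserving (naskew S φ α) (μ.prod ν) (μ.prod ν) :=
    naskew_mp μ S hS φ hφ α hα ν hν
  set T := naskew S φ α with hTdef
  set ρ := μ.prod ν with hρ
  have hTm : ∀ k, Measurable (T^[k]) := fun k => hT.measurable.iterate k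
  have hcomm : ∀ (k l : ℕ) (z : X × Dual M), T^[k] (T^[l] z) = T^[l] (T^[k] z) := by
    intro k l z
    rw [← Function.iterate_add_apply, ← Function.iterate_add_apply, add_comm]
  -- the functions a
  set a : ℕ → X × Dual M → ℂ := fun t z => ∏ j, ten (A j) (m j) (T^[t] (T^[n j] z)) with ha
  have ham : ∀ t, Measurable (a t) := by
    intro t
    refine Finset.measurable_prod _ (fun j _ => ?_)
    exact (NKq_aux_ten_meas (A j) (hA j) (m j)).comp ((hTm t).comp (hTm (n j)))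
  have hale : ∀ t z, ‖a t z‖ ≤ 1 := fun t z =>
    NKq_aux_prod_le _ (fun j => NKq_aux_ten_le _ _ _)
  have haint : ∀ t, Integrable (a t) ρ := fun t =>
    Integrable.of_bound (ham t).aestronglyMeasurable 1 (Eventually.of_forall (hale t))
  have hI : ∀ t, ∫ z, a t z ∂ρ = ∫ z, ∏ j, ten (A j) (m j) (T^[n j] z) ∂ρ := by
    intro t
    have hm0 : Measurable (fun z : X × Dual M => ∏ j, ten (A j) (m j) (T^[n j] z)) := by
      refine Finset.measurable_prod _ (fun j _ => ?_)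
      exact (NKq_aux_ten_meas (A j) (hA j) (m j)).comp (hTm (n j))
    have h1 : ∀ z, a t z = (fun z : X × Dual M => ∏ j, ten (A j) (m j) (T^[n j] z)) (T^[t] z) := by
      intro z
      simp only [ha]
      exact Finset.prod_congr rfl (fun j _ => by rw [hcomm])
    have h2 : Measure.map (T^[t]) ρ = ρ := (hT.iterate t).map_eq
    calc ∫ z, a t z ∂ρ = ∫ z, (fun z : X × Dual M => ∏ j, ten (A j) (m j) (T^[n j] z)) (T^[t] z) ∂ρ :=
          integral_congr_ae (Eventually.of_forall h1)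
      _ = ∫ z, (fun z : X × Dual M => ∏ j, ten (A j) (m j) (T^[n j] z)) z ∂(Measure.map (T^[t]) ρ) :=
          (integral_map (hTm t).aemeasurable hm0.aestronglyMeasurable).symm
      _ = _ := by rw [h2]
  set I := ∫ z, ∏ j, ten (A j) (m j) (T^[n j] z) ∂ρ with hIdef
  set F : X × Dual M → ℂ := fun z => ∑ t ∈ Finset.range N, a t z with hF
  have hFm : Measurable F := Finset.measurable_sum _ (fun t _ => ham t)
  have hFle : ∀ z, ‖F z‖ ≤ N := by
    intro z
    refine (norm_sum_le _ _).trans ?_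
    refine (Finset.sum_le_card_nsmul _ _ 1 (fun t _ => hale t z)).trans ?_
    simp
  have hFint : Integrable F ρ :=
    Integrable.of_bound hFm.aestronglyMeasurable N (Eventually.of_forall hFle)
  have hF2int : Integrable (fun z => ‖F z‖ ^ 2) ρ := by
    refine Integrable.of_bound (hFm.norm.pow_const 2).aestronglyMeasurable ((N : ℝ) ^ 2)
      (Eventually.of_forall (fun z => ?_))
    rw [Real.norm_of_nonneg (by positivity)]
    exact pow_le_pow_left₀ (norm_nonneg _) (hFle z) 2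
  have hNI : ∫ z, F z ∂ρ = N * I := by
    simp only [hF]
    rw [integral_finsetSum _ (fun t _ => haint t)]
    simp only [hI]
    simp
  have hJ := NKq_aux_jensen ρ F hFint hF2int
  -- the double sum
  set b : ℕ → ℕ → X × Dual M → ℂ := fun t t' z =>
    ∏ j, nth S φ α L (A j) (m j) t t' (T^[n j] z) with hb
  have hbm : ∀ t t', Measurable (b t t') := by
    intro t t'
    refine Finset.measurable_prod _ (fun j _ => ?_)
    exact (nth_meas S hS.measurable φ hφ α hα L hL (A j) (hA j) (m j) t t').comp (hTm (n j))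
  have hble : ∀ t t' z, ‖b t t' z‖ ≤ 1 := fun t t' z =>
    NKq_aux_prod_le _ (fun j => nth_norm _ _ _ _ _ _ _ _ _)
  have hbint : ∀ t t', Integrable (b t t') ρ := fun t t' =>
    Integrable.of_bound (hbm t t').aestronglyMeasurable 1 (Eventually.of_forall (hble t t'))
  set W : X × Dual M → ℂ := fun z =>
    ∑ t ∈ Finset.range N, ∑ t' ∈ Finset.range N, b t t' z with hW
  have hWint : Integrable W ρ :=
    integrable_finsetSum _ (fun t _ => integrable_finsetSum _ (fun t' _ => hbint t t'))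
  have hWI : ∫ z, W z ∂ρ = ∑ t ∈ Finset.range N, ∑ t' ∈ Finset.range N, ∫ z, b t t' z ∂ρ := by
    simp only [hW]
    rw [integral_finsetSum _ (fun t _ => integrable_finsetSum _ (fun t' _ => hbint t t'))]
    exact Finset.sum_congr rfl (fun t _ => integral_finsetSum _ (fun t' _ => hbint t t'))
  -- the classes
  have hrec : ∀ᵐ x ∂μ, ∃ Z : Finset M, Z.card ≤ f ∧
      ∀ (t : ℕ) (m : M), S^[t] x ∈ B m → ∃ z ∈ Z, coc S φ t x m - z ∈ L x := by
    filter_upwards [NKq_iter μ S hS φ B hB.2.2.1, hB.2.2.2] with x h1 h2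
    obtain ⟨Z, hZ1, hZ2⟩ := h2
    exact ⟨Z, hZ1, fun t m hm => hZ2 _ ((h1 t m).1 hm)⟩
  have hrec2 : ∀ᵐ z ∂ρ, ∀ j, ∃ Z : Finset M, Z.card ≤ f ∧
      ∀ (t : ℕ) (m : M), S^[t] (S^[n j] z.1) ∈ B m →
        ∃ z' ∈ Z, coc S φ t (S^[n j] z.1) m - z' ∈ L (S^[n j] z.1) := by
    rw [ae_all_iff]
    intro j
    have h1 : ∀ᵐ x ∂μ, ∃ Z : Finset M, Z.card ≤ f ∧
      ∀ (t : ℕ) (m : M), S^[t] (S^[n j] x) ∈ B m →
        ∃ z' ∈ Z, coc S φ t (S^[n j] x) m - z' ∈ L (S^[n j] x) :=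
      (hS.iterate (n j)).quasiMeasurePreserving.ae hrec
    exact Measure.quasiMeasurePreserving_fst.ae h1
  have hpt : ∀ᵐ z ∂ρ, ‖F z‖ ^ 2 ≤ (f : ℝ) ^ s * (W z).re := by
    filter_upwards [hrec2] with z hz
    choose Z hZc hZ using hz
    set q : ℕ → ∀ j : Fin s, M ⧸ L (S^[n j] z.1) :=
      fun t j => (L (S^[n j] z.1)).mkQ (coc S φ t (S^[n j] z.1) (m j)) with hq
    set Z' : ∀ j : Fin s, Finset (M ⧸ L (S^[n j] z.1)) :=
      fun j => (Z j).image (L (S^[n j] z.1)).mkQ with hZ'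
    have hcard : (Fintype.piFinset Z').card ≤ f ^ s := by
      rw [Fintype.card_piFinset]
      calc ∏ j, (Z' j).card ≤ ∏ _j : Fin s, f :=
            Finset.prod_le_prod' (fun j _ => Finset.card_image_le.trans (hZc j))
        _ = f ^ s := by simp
    have hmem : ∀ t ∈ Finset.range N, a t z ≠ 0 → q t ∈ Fintype.piFinset Z' := by
      intro t _ hne
      rw [Fintype.mem_piFinset]
      intro j
      have h1 : ten (A j) (m j) (T^[t] (T^[n j] z)) ≠ 0 := by
        intro h0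
        exact hne (Finset.prod_eq_zero (Finset.mem_univ j) h0)
      have h2 : (T^[t] (T^[n j] z)).1 ∈ A j := by
        by_contra h3
        apply h1
        unfold ten
        rw [Set.indicator_of_notMem h3, zero_mul]
      rw [NKq_aux_fst, NKq_aux_fst] at h2
      obtain ⟨z', hz', hzd⟩ := hZ j t _ (hAB j h2)
      rw [hZ', Finset.mem_image]
      exact ⟨z', hz', ((Submodule.Quotient.eq _).2 hzd).symm⟩
    have hcs := cs_classes (Finset.range N) (fun t => a t z) q (f ^ s) (Fintype.piFinset Z')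
      hcard hmem
    have hbz : ∀ t t', b t t' z =
        if q t = q t' then a t z * (starRingEnd ℂ) (a t' z) else 0 := by
      intro t t'
      have hiff : q t = q t' ↔ ∀ j, coc S φ t (S^[n j] z.1) (m j) -
          coc S φ t' (S^[n j] z.1) (m j) ∈ L (S^[n j] z.1) := by
        rw [funext_iff]
        refine forall_congr' (fun j => ?_)
        simp only [hq]
        rw [Submodule.mkQ_apply, Submodule.mkQ_apply, Submodule.Quotient.eq]
      by_cases hqq : q t = q t'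
      · rw [if_pos hqq]
        rw [hiff] at hqq
        simp only [hb, ha, map_prod]
        rw [← Finset.prod_mul_distrib]
        refine Finset.prod_congr rfl (fun j _ => ?_)
        unfold nth
        rw [Set.indicator_of_mem (by
          simp only [Set.mem_ofPred_eq]
          rw [NKq_aux_fst]
          exact hqq j), one_mul]
      · rw [if_neg hqq]
        rw [hiff] at hqq
        push Not at hqq
        obtain ⟨j, hj⟩ := hqq
        refine Finset.prod_eq_zero (Finset.mem_univ j) ?_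
        unfold nth
        rw [Set.indicator_of_notMem (by
          simp only [Set.mem_ofPred_eq]
          rw [NKq_aux_fst]
          exact hj), zero_mul]
    have hWz : W z = ∑ t ∈ Finset.range N, ∑ t' ∈ Finset.range N,
        (if q t = q t' then a t z * (starRingEnd ℂ) (a t' z) else 0) := by
      simp only [hW]
      exact Finset.sum_congr rfl (fun t _ => Finset.sum_congr rfl (fun t' _ => hbz t t'))
    obtain ⟨h1, h2, h3⟩ := hcs
    rw [← hWz] at h1 h2 h3
    have h4 : ‖W z‖ = (W z).re := by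
      have h5 : W z = (((W z).re : ℝ) : ℂ) := by
        apply Complex.ext
        · simp
        · simpa using h3
      rw [h5, Complex.norm_real, Complex.ofReal_re, Real.norm_of_nonneg h2]
    rw [h4] at h1
    push_cast at h1
    exact h1
  have hWre : Integrable (fun z => (W z).re) ρ := hWint.re
  have h5 : ∫ z, ‖F z‖ ^ 2 ∂ρ ≤ (f : ℝ) ^ s * ‖∫ z, W z ∂ρ‖ := by
    calc ∫ z, ‖F z‖ ^ 2 ∂ρ ≤ ∫ z, (f : ℝ) ^ s * (W z).re ∂ρ :=
          integral_mono_ae hF2int (hWre.const_mul _) hpt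
      _ = (f : ℝ) ^ s * ∫ z, (W z).re ∂ρ := integral_const_mul _ _
      _ ≤ (f : ℝ) ^ s * ‖∫ z, W z ∂ρ‖ := by
          refine mul_le_mul_of_nonneg_left ?_ (by positivity)
          have h6 : ∫ z, (W z).re ∂ρ = (∫ z, W z ∂ρ).re := integral_re hWint
          rw [h6]
          exact Complex.re_le_norm _
  rw [hNI] at hJ
  rw [hWI] at h5
  have h7 : ‖(N : ℂ) * I‖ ^ 2 = ‖I‖ ^ 2 * (N : ℝ) ^ 2 := by
    rw [norm_mul, mul_pow]
    simp
    ring
  rw [h7] at hJ
  exact hJ.trans h5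

end H567MM
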