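import Pool.Agent.H567R2.MOF.M3
import Pool.Agent.H567R2.MQ.Defs

/-! NW: recurrent elements give families. -/

namespace H567MM

open MeasureTheory Filter Topology

theorem NWq_aux_mp {Ω κ : Type*} [MeasurableSpace Ω] (P : Measure Ω) [IsProbabilityMeasure P]
    (S : Ω → Ω) (hS : MeasurePreserving S P P)
    [Countable κ] [MeasurableSpace κ] [DiscreteMeasurableSpace κ] (e : Ω → (κ ≃ κ))
    (he : ∀ q q', MeasurableSet {ω | e ω q = q'}) :
    MeasurePreserving (fun z : Ω × κ => (S z.1, (e z.1).symm z.2)) (P.prod Measure.count)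
      (P.prod Measure.count) := by
  have hm : Measurable (Function.uncurry fun (ω : Ω) (q : κ) => (e ω).symm q) := by
    refine measurable_to_countable' fun q' => ?_
    have : Function.uncurry (fun (ω : Ω) (q : κ) => (e ω).symm q) ⁻¹' {q'} =
        ⋃ q : κ, {ω | e ω q' = q} ×ˢ {q} := by
      ext ⟨ω, q⟩
      simp only [Set.mem_preimage, Function.uncurry_apply_pair, Set.mem_singleton_iff,
        Set.mem_iUnion, Set.mem_prod, Set.mem_ofPred_eq]
      constructor
      · intro h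
        exact ⟨q, by rw [← h, Equiv.apply_symm_apply], rfl⟩
      · rintro ⟨q2, h1, rfl⟩
        rw [← h1, Equiv.symm_apply_apply]
    rw [this]
    exact MeasurableSet.iUnion fun q => (he q' q).prod (measurableSet_singleton q)
  refine hS.skew_product hm (ae_of_all _ fun ω => ?_)
  ext s hs
  rw [Measure.map_apply Measurable.of_discrete hs]
  have h1 : (fun q : κ => (e ω).symm q) ⁻¹' s = (e ω) '' s := by
    ext q
    simp only [Set.mem_preimage, Set.mem_image]
    constructor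
    · intro h
      exact ⟨_, h, Equiv.apply_symm_apply _ _⟩
    · rintro ⟨q2, h1, rfl⟩
      rwa [Equiv.symm_apply_apply]
  show Measure.count ((fun q : κ => (e ω).symm q) ⁻¹' s) = Measure.count s
  rw [h1, Measure.count_injective_image (e ω).injective]

theorem NWq_aux_card {Ω κ : Type*} [MeasurableSpace Ω] (P : Measure Ω) [IsProbabilityMeasure P]
    (S : Ω → Ω) (hS : Ergodic S P)
    [Countable κ] [MeasurableSpace κ] [DiscreteMeasurableSpace κ] (e : Ω → (κ ≃ κ))
    (B : Set (Ω × κ)) (hB : MeasurableSet B) (hfin : (P.prod Measure.count) B ≠ ⊤)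
    (hinv : ∀ᵐ ω ∂P, ∀ q : κ, ((ω, q) ∈ B ↔ (S ω, (e ω).symm q) ∈ B)) :
    ∃ f : ℕ, ∀ᵐ ω ∂P, {q | (ω, q) ∈ B}.encard ≤ f := by
  set N : Ω → ENNReal := fun ω => Measure.count (Prod.mk ω ⁻¹' B) with hN
  have hNm : Measurable N := measurable_measure_prodMk_left hB
  have hNS : N ∘ S =ᵐ[P] N := by
    filter_upwards [hinv] with ω hω
    show Measure.count (Prod.mk (S ω) ⁻¹' B) = Measure.count (Prod.mk ω ⁻¹' B)
    have : Prod.mk (S ω) ⁻¹' B = (e ω).symm '' (Prod.mk ω ⁻¹' B) := by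
      ext q
      simp only [Set.mem_preimage, Set.mem_image]
      constructor
      · intro h
        refine ⟨e ω q, ?_, Equiv.symm_apply_apply _ _⟩
        rw [hω, Equiv.symm_apply_apply]
        exact h
      · rintro ⟨q2, h1, rfl⟩
        exact (hω q2).1 h1
    rw [this, Measure.count_injective_image (e ω).symm.injective]
  obtain ⟨c, hc⟩ := hS.ae_eq_const_of_ae_eq_comp_ae hNm.aestronglyMeasurable hNS
  have hint : ∫⁻ ω, N ω ∂P ≠ ⊤ := by
    rw [Measure.prod_apply hB] at hfin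
    exact hfin
  have hcf : c ≠ ⊤ := by
    intro htop
    apply hint
    rw [lintegral_congr_ae hc]
    simp [htop]
  refine ⟨⌈c.toReal⌉₊, ?_⟩
  filter_upwards [hc] with ω hω
  have h1 : Measure.count (Prod.mk ω ⁻¹' B) = c := hω
  rw [Measure.count_apply (measurable_prodMk_left hB)] at h1
  have h2 : {q | (ω, q) ∈ B} = Prod.mk ω ⁻¹' B := rfl
  rw [h2]
  have h3 : (Prod.mk ω ⁻¹' B).Finite := by
    by_contra hcon
    have : (Prod.mk ω ⁻¹' B).encard = ⊤ := Set.encard_eq_top_iff.2 hcon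
    rw [this] at h1
    apply hcf
    rw [← h1]
    rfl
  rw [← h3.cast_ncard_eq] at h1 ⊢
  have h4 : ((Prod.mk ω ⁻¹' B).ncard : ℝ) = c.toReal := by
    rw [← h1]
    simp
  have h5 : (Prod.mk ω ⁻¹' B).ncard ≤ ⌈c.toReal⌉₊ := by
    have : ((Prod.mk ω ⁻¹' B).ncard : ℝ) ≤ (⌈c.toReal⌉₊ : ℝ) := by
      rw [h4]; exact Nat.le_ceil _
    exact_mod_cast this
  exact_mod_cast h5

theorem nrec_fam {X R M : Type*} [MeasurableSpace X] (μ : Measure X)
    [IsProbabilityMeasure μ] (S : X → X) (hS : Ergodic S μ)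
    [CommRing R] [AddCommGroup M] [Module R M] [Countable M] (φ : X → (M ≃ₗ[R] M))
    (hφ : ∀ m m' : M, MeasurableSet {x | φ x m = m'}) (m : M) (h : ¬ NTrans μ S φ m) :
    ∃ (B : M → Set X) (f : ℕ), (∀ m', MeasurableSet (B m')) ∧
      (∀ᵐ x ∂μ, ∀ m', (x ∈ B (φ x m') ↔ S x ∈ B m')) ∧
      (∀ᵐ x ∂μ, {m' | x ∈ B m'}.encard ≤ f) ∧ μ (B m) ≠ 0 := by
  classical
  letI : MeasurableSpace M := ⊤
  have hdisc : DiscreteMeasurableSpace M := ⟨fun _ => trivial⟩
  unfold NTrans at h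
  push Not at h
  obtain ⟨m', c, hc, h⟩ := h
  set e : X → (M ≃ M) := fun x => (φ x).toEquiv with he
  have hes : ∀ x q, (e x).symm q = (φ x).symm q := fun x q => rfl
  set τ : X × M → X × M := fun z => (S z.1, (e z.1).symm z.2) with hτdef
  have hτ : MeasurePreserving τ (μ.prod Measure.count) (μ.prod Measure.count) :=
    NWq_aux_mp μ S hS.toMeasurePreserving e (fun q q' => hφ q q')
  have hit : ∀ (n : ℕ) (x : X) (q : M), τ^[n] (x, q) = (S^[n] x, (coc S φ n x).symm q) := by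
    intro n x q
    induction n with
    | zero => rfl
    | succ n ih =>
      rw [Function.iterate_succ_apply', ih, hτdef]
      simp only [hes, coc, Function.iterate_succ_apply']
      rfl
  have hrec : ∀ N₀ : ℕ, ∃ N ≥ N₀, c * N ≤
      ∑ n ∈ Finset.range N, μ.real {ω | (τ^[n] (ω, m')).2 = m} := by
    intro N₀
    obtain ⟨N, hN, hN2⟩ := h N₀
    refine ⟨N, hN, hN2.trans (le_of_eq (Finset.sum_congr rfl fun n _ => ?_))⟩
    congr 1
    ext x
    simp only [Set.mem_ofPred_eq, hit]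
    rw [LinearEquiv.symm_apply_eq]
    exact eq_comm
  obtain ⟨B, hB, hBfin, hBpos, hBinv⟩ := inv_set μ τ hτ m m' c hc hrec
  obtain ⟨f, hf⟩ := NWq_aux_card μ S hS e B hB hBfin hBinv
  refine ⟨fun q => {x | (x, q) ∈ B}, f, fun q => measurable_prodMk_right hB, ?_, hf, hBpos⟩
  filter_upwards [hBinv] with x hx q
  have h1 := hx (φ x q)
  show (x, φ x q) ∈ B ↔ (S x, q) ∈ B
  rw [h1]
  show (S x, (φ x).symm (φ x q)) ∈ B ↔ _
  rw [LinearEquiv.symm_apply_apply]

end H567MM
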