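import Pool.Agent.H567R2.MOF.M3
import Pool.Agent.H567R2.MQ.Defs
import Pool.Agent.H567R2.MQF.NV
import Pool.Agent.H567R2.MQF.NW
import Pool.Agent.H567R2.MQF.NC

/-! Task NTP (helper184): the top. -/

namespace H567MM

open MeasureTheory Filter Topology

/-- the trivialised quotient cocycle is transient -/
theorem NTPq_aux_tr {X R M V : Type*} [MeasurableSpace X] (μ : Measure X)
    [IsProbabilityMeasure μ] (S : X → X) (hS : Ergodic S μ)
    [CommRing R] [AddCommGroup M] [Module R M] [Countable M]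
    [AddCommGroup V] [Module R V] [Countable V] (φ : X → (M ≃ₗ[R] M))
    (L : X → Submodule R M)
    (hno : ∀ (B : M → Set X) (f : ℕ), CFam μ S φ L B f → ∀ᵐ x ∂μ, ∀ m, x ∈ B m → m ∈ L x)
    (φ' : X → (V ≃ₗ[R] V)) (q : X → (M →ₗ[R] V))
    (h1 : ∀ v v' : V, MeasurableSet {x | φ' x v = v'})
    (h2 : ∀ (m : M) (v : V), MeasurableSet {x | q x m = v})
    (h3 : ∀ᵐ x ∂μ, Function.Surjective (q x)) (h4 : ∀ᵐ x ∂μ, ∀ m, (q x m = 0 ↔ m ∈ L x))
    (h5 : ∀ᵐ x ∂μ, ∀ m, q x (φ x m) = φ' x (q (S x) m)) (v : V) (hv : v ≠ 0) :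
    NTrans μ S φ' v := by
  classical
  by_contra hn
  obtain ⟨Bb, f, b1, b2, b3, b4⟩ := nrec_fam μ S hS φ' h1 v hn
  have hfam : CFam μ S φ L (fun m => {x | x ∈ Bb (q x m)}) f := by
    refine ⟨fun m => ?_, ?_, ?_, ?_⟩
    · have : {x | x ∈ Bb (q x m)} = ⋃ u : V, {x | q x m = u} ∩ Bb u := by
        ext x
        simp
      show MeasurableSet {x | x ∈ Bb (q x m)}
      rw [this]
      exact MeasurableSet.iUnion fun u => (h2 m u).inter (b1 u)
    · filter_upwards [h4] with x hx m m' hmm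
      have : q x m = q x m' := by
        have := (hx (m - m')).2 hmm
        rwa [map_sub, sub_eq_zero] at this
      show x ∈ Bb (q x m) ↔ x ∈ Bb (q x m')
      rw [this]
    · filter_upwards [h5, b2] with x hx hx' m
      show x ∈ Bb (q x (φ x m)) ↔ S x ∈ Bb (q (S x) m)
      rw [hx, hx']
    · filter_upwards [h3, h4, b3] with x hs hx hb
      have hfin : {v | x ∈ Bb v}.Finite := Set.finite_of_encard_le_coe hb
      obtain ⟨σ, hσ⟩ := hs.hasRightInverse
      refine ⟨hfin.toFinset.image σ, ?_, ?_⟩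
      · refine Finset.card_image_le.trans ?_
        have := hfin.encard_eq_coe_toFinset_card
        rw [this] at hb
        exact_mod_cast hb
      · intro m hm
        refine ⟨σ (q x m), Finset.mem_image_of_mem _ (hfin.mem_toFinset.2 hm), ?_⟩
        rw [← hx, map_sub, hσ, sub_self]
  have h6 := hno _ f hfam
  apply b4
  have h7 : ∀ᵐ x ∂μ, x ∉ Bb v := by
    filter_upwards [h6, h3, h4] with x hx hs hx4 hxb
    obtain ⟨m, hm⟩ := hs v
    have h8 : m ∈ L x := hx m (by
      show x ∈ Bb (q x m)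
      rw [hm]
      exact hxb)
    rw [← hx4, hm] at h8
    exact hv h8
  exact measure_eq_zero_iff_ae_notMem.2 h7

/-- the intertwining relation for the iterates -/
theorem NTPq_aux_iter {X R M V : Type*} [MeasurableSpace X] (μ : Measure X)
    (S : X → X) (hS : MeasurePreserving S μ μ)
    [CommRing R] [AddCommGroup M] [Module R M]
    [AddCommGroup V] [Module R V] (φ : X → (M ≃ₗ[R] M))
    (φ' : X → (V ≃ₗ[R] V)) (q : X → (M →ₗ[R] V))
    (h5 : ∀ᵐ x ∂μ, ∀ m, q x (φ x m) = φ' x (q (S x) m)) :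
    ∀ᵐ x ∂μ, ∀ (n : ℕ) (m : M), q x (coc S φ n x m) = coc S φ' n x (q (S^[n] x) m) := by
  have h6 : ∀ᵐ x ∂μ, ∀ n : ℕ, ∀ m, q (S^[n] x) (φ (S^[n] x) m) =
      φ' (S^[n] x) (q (S (S^[n] x)) m) :=
    ae_all_iff.2 fun n => (hS.iterate n).quasiMeasurePreserving.ae h5
  filter_upwards [h6] with x hx n
  induction n with
  | zero =>
    intro m
    simp [coc]
  | succ n ih =>
    intro m
    have e1 : coc S φ (n + 1) x m = coc S φ n x (φ (S^[n] x) m) := rfl
    have e2 : ∀ v, coc S φ' (n + 1) x v = coc S φ' n x (φ' (S^[n] x) v) := fun v => rfl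
    rw [e1, ih, hx, e2, Function.iterate_succ_apply']

/-- a map to a countable set takes values in a finite set up to a small error -/
theorem NTPq_aux_fin {X V : Type*} [MeasurableSpace X] (μ : Measure X)
    [IsProbabilityMeasure μ] [Countable V] (u : X → V)
    (hu : ∀ v, MeasurableSet {x | u x = v}) (δ : ℝ) (hδ : 0 < δ) :
    ∃ F : Finset V, μ.real {x | u x ∉ F} < δ := by
  classical
  have hne : Nonempty X := by
    by_contra hX
    rw [not_nonempty_iff] at hX
    have := measure_univ (μ := μ)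
    rw [Set.univ_eq_empty_iff.2 hX, measure_empty] at this
    exact zero_ne_one this
  have : Nonempty V := ⟨u (Classical.arbitrary X)⟩
  obtain ⟨e, he⟩ := exists_surjective_nat V
  have hmeas : ∀ F : Finset V, MeasurableSet {x | u x ∉ F} := by
    intro F
    have : {x | u x ∉ F} = (⋃ v ∈ F, {x | u x = v})ᶜ := by
      ext x
      simp
    rw [this]
    exact (Finset.measurableSet_biUnion _ fun v _ => hu v).compl
  have hlim := tendsto_measure_iInter_atTop (μ := μ)
    (s := fun N : ℕ => {x | u x ∉ (Finset.range N).image e})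
    (fun N => (hmeas _).nullMeasurableSet) (fun N N' hNN x hx hx' => hx
      (Finset.image_subset_image (Finset.range_subset_range.2 hNN) hx')) ⟨0, measure_ne_top _ _⟩
  have hempty : (⋂ N : ℕ, {x | u x ∉ (Finset.range N).image e}) = ∅ := by
    ext x
    simp only [Set.mem_iInter, Set.mem_empty_iff_false, iff_false]
    intro h
    obtain ⟨a, ha⟩ := he (u x)
    exact h (a + 1) (Finset.mem_image.2 ⟨a, by simp, ha⟩)
  rw [hempty, measure_empty] at hlim
  have h1 : ∀ᶠ N : ℕ in atTop, μ {x | u x ∉ (Finset.range N).image e} < ENNReal.ofReal δ :=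
    hlim.eventually_lt_const (ENNReal.ofReal_pos.2 hδ)
  obtain ⟨N, hN⟩ := h1.exists
  refine ⟨(Finset.range N).image e, ?_⟩
  rw [measureReal_def]
  exact (ENNReal.toReal_lt_of_lt_ofReal hN)

theorem npl_top {X R M : Type*} [MeasurableSpace X] (μ : Measure X)
    [IsProbabilityMeasure μ] (S : X → X) (hS : MeasurePreserving S μ μ) (hmix : MixOrd μ S 1)
    [CommRing R] [IsNoetherianRing R] [AddCommGroup M] [Module R M] [Module.Finite R M]
    [Countable M] (φ : X → (M ≃ₗ[R] M)) (hφ : ∀ m m' : M, MeasurableSet {x | φ x m = m'})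
    (α : X → Dual M) (hα : Measurable α) (ν : Measure (Dual M)) (hν : IsHaarProb ν) (k : ℕ)
    (hk : MixOrd μ S k) (L : X → Submodule R M) (hL : IsFld μ S φ L)
    (hPL : NPL μ ν S φ α k L)
    (hno : ∀ (B : M → Set X) (f : ℕ), CFam μ S φ L B f → ∀ᵐ x ∂μ, ∀ m, x ∈ B m → m ∈ L x) :
    NPL μ ν S φ α k (fun _ => (⊤ : Submodule R M)) := by
  classical
  have hE : Ergodic S μ := H567MM.ergodic_of_mix μ S hS hmix
  obtain ⟨N₀, φ', q, h1, h2, h3, h4, h5⟩ := triv μ S hE φ hφ L hL
  have hcount : Countable (M ⧸ N₀) := N₀.mkQ_surjective.countable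
  have htr : ∀ v : M ⧸ N₀, v ≠ 0 → NTrans μ S φ' v :=
    fun v hv => NTPq_aux_tr μ S hE φ L hno φ' q h1 h2 h3 h4 h5 v hv
  have hit := NTPq_aux_iter μ S hS φ φ' q h5
  have h4' : ∀ᵐ x ∂μ, ∀ n : ℕ, ∀ m, (q (S^[n] x) m = 0 ↔ m ∈ L (S^[n] x)) :=
    ae_all_iff.2 fun n => (hS.iterate n).quasiMeasurePreserving.ae h4
  intro A m hA _ ε hε
  -- finite set of values
  have hF : ∀ j, ∃ F : Finset (M ⧸ N₀), μ.real {x | q x (m j) ∉ F} < ε / (4 * (k + 1)) :=
    fun j => NTPq_aux_fin μ (fun x => q x (m j)) (h2 (m j)) _ (by positivity)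
  choose F0 hF0 using hF
  set F : Finset (M ⧸ N₀) := Finset.univ.biUnion F0 with hFdef
  set W : Finset (Fin (k + 1) → M ⧸ N₀) :=
    (Fintype.piFinset fun _ => F).filter (fun w => w ≠ 0) with hW
  have hsm : ∀ w : Fin (k + 1) → M ⧸ N₀, ∃ G : ℕ, w ∈ W → ∀ n : Fin (k + 1) → ℕ, n 0 = 0 →
      (∀ j : Fin k, n j.castSucc + G ≤ n j.succ) →
      μ.real {x | ∑ j, coc S φ' (n j) x (w j) = 0} < ε / (4 * (W.card + 1)) := by
    intro w
    by_cases hw : w ∈ W
    · have hw0 : w ≠ 0 := (Finset.mem_filter.1 hw).2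
      obtain ⟨G, hG⟩ := small_module2 μ S hS hmix φ' h1 htr k hk w hw0
        (ε / (4 * (W.card + 1))) (by positivity)
      exact ⟨G, fun _ => hG⟩
    · exact ⟨0, fun h => absurd h hw⟩
  choose G1 hG1 using hsm
  set A' : Fin (k + 1) → Set X := fun j => A j ∩ {x | m j ∈ L x} with hA'def
  have hA' : ∀ j, MeasurableSet (A' j) := fun j => (hA j).inter (hL.1 (m j))
  obtain ⟨G2, hG2⟩ := hPL A' m hA' (fun j x hx => hx.2) (ε / 4) (by positivity)
  refine ⟨max G2 (W.sup G1), fun n hn0 hn => ?_⟩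
  have hgap2 : ∀ j : Fin k, n j.castSucc + G2 ≤ n j.succ := fun j => by
    have := hn j
    have := le_max_left G2 (W.sup G1)
    omega
  have hgap1 : ∀ w ∈ W, ∀ j : Fin k, n j.castSucc + G1 w ≤ n j.succ := fun w hw j => by
    have := hn j
    have := le_max_right G2 (W.sup G1)
    have := Finset.le_sup (f := G1) hw
    omega
  -- the products agree
  have hprod : ∏ j, ∫ z, ten (A' j) (m j) z ∂(μ.prod ν) =
      ∏ j, ∫ z, ten (A j) (m j) z ∂(μ.prod ν) := by
    refine Finset.prod_congr rfl fun j _ => ?_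
    by_cases hmj : m j = 0
    · have : A' j = A j := by
        rw [hA'def]
        ext x
        simp [hmj]
      rw [this]
    · rw [ten_integral_ne μ ν hν (A' j) (hA' j) (m j) hmj,
        ten_integral_ne μ ν hν (A j) (hA j) (m j) hmj]
  -- the comparison of the integrals
  have hcmp := nten_int_sub μ S hS φ hφ α hα ν hν A A' hA hA' (fun j => Set.inter_subset_left) m n
  set D : Set X := {x | (∀ j, S^[n j] x ∈ A j) ∧ (∃ j, S^[n j] x ∉ A' j) ∧
        ∑ j, coc S φ (n j) x (m j) = 0} with hD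
  set U1 : Set X := ⋃ j ∈ (Finset.univ : Finset (Fin (k + 1))),
    {x | q (S^[n j] x) (m j) ∉ F} with hU1
  set U2 : Set X := ⋃ w ∈ W, {x | ∑ j, coc S φ' (n j) x (w j) = 0} with hU2
  have hsub : D ≤ᵐ[μ] (U1 ∪ U2 : Set X) := by
    filter_upwards [hit, h4'] with x hx hx4 hxD
    obtain ⟨d1, ⟨j, d2⟩, d3⟩ := hxD
    by_cases hxU : x ∈ U1
    · exact Or.inl hxU
    · refine Or.inr ?_
      have hall : ∀ j, q (S^[n j] x) (m j) ∈ F := by
        intro i
        by_contra hi
        apply hxU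
        rw [hU1, Set.mem_iUnion₂]
        exact ⟨i, Finset.mem_univ i, hi⟩
      rw [hU2, Set.mem_iUnion₂]
      refine ⟨fun j => q (S^[n j] x) (m j), ?_, ?_⟩
      · rw [hW, Finset.mem_filter, Fintype.mem_piFinset]
        refine ⟨hall, fun h0 => ?_⟩
        have h6 : q (S^[n j] x) (m j) = 0 := congrFun h0 j
        rw [hx4] at h6
        exact d2 ⟨d1 j, h6⟩
      · show ∑ j, coc S φ' (n j) x (q (S^[n j] x) (m j)) = 0
        have h7 : ∑ j, coc S φ' (n j) x (q (S^[n j] x) (m j)) =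
            q x (∑ j, coc S φ (n j) x (m j)) := by
          rw [map_sum]
          exact Finset.sum_congr rfl fun j _ => (hx (n j) (m j)).symm
        rw [h7, d3, map_zero]
  have hDle : μ.real D ≤ ε / 2 := by
    have e1 : μ.real D ≤ μ.real (U1 ∪ U2) :=
      ENNReal.toReal_mono (measure_ne_top _ _) (measure_mono_ae hsub)
    have e2 : μ.real (U1 ∪ U2) ≤ μ.real U1 + μ.real U2 := measureReal_union_le _ _
    have e3 : μ.real U1 ≤ ε / 4 := by
      have c1 : μ.real U1 ≤ ∑ j : Fin (k + 1), μ.real {x | q (S^[n j] x) (m j) ∉ F} :=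
        measureReal_biUnion_finset_le _ _
      have c2 : ∀ j : Fin (k + 1), μ.real {x | q (S^[n j] x) (m j) ∉ F} ≤
          ε / (4 * (k + 1)) := by
        intro j
        have hmeas : MeasurableSet {x | q x (m j) ∉ F} := by
          have : {x | q x (m j) ∉ F} = (⋃ v ∈ F, {x | q x (m j) = v})ᶜ := by
            ext x
            simp
          rw [this]
          exact (Finset.measurableSet_biUnion _ fun v _ => h2 (m j) v).compl
        have c3 : μ.real {x | q (S^[n j] x) (m j) ∉ F} = μ.real {x | q x (m j) ∉ F} := by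
          have := (hS.iterate (n j)).measure_preimage hmeas.nullMeasurableSet
          rw [measureReal_def, measureReal_def, ← this]
          rfl
        rw [c3]
        refine le_trans (measureReal_mono ?_ (measure_ne_top _ _)) (hF0 j).le
        intro x hx hx'
        exact hx (Finset.mem_biUnion.2 ⟨j, Finset.mem_univ j, hx'⟩)
      refine c1.trans ((Finset.sum_le_sum fun j _ => c2 j).trans (le_of_eq ?_))
      rw [Finset.sum_const, Finset.card_univ, Fintype.card_fin, nsmul_eq_mul]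
      push_cast
      field_simp
    have e4 : μ.real U2 ≤ ε / 4 := by
      have c1 : μ.real U2 ≤ ∑ w ∈ W, μ.real {x | ∑ j, coc S φ' (n j) x (w j) = 0} :=
        measureReal_biUnion_finset_le _ _
      refine c1.trans ((Finset.sum_le_sum fun w hw =>
        (hG1 w hw n hn0 (hgap1 w hw)).le).trans ?_)
      rw [Finset.sum_const, nsmul_eq_mul]
      rw [mul_div_assoc', div_le_div_iff₀ (by positivity) (by norm_num)]
      nlinarith
    linarith
  have h8 := hG2 n hn0 hgap2
  rw [hprod] at h8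
  calc ‖∫ z, ∏ j, ten (A j) (m j) ((naskew S φ α)^[n j] z) ∂(μ.prod ν) -
        ∏ j, ∫ z, ten (A j) (m j) z ∂(μ.prod ν)‖
      = ‖(∫ z, ∏ j, ten (A j) (m j) ((naskew S φ α)^[n j] z) ∂(μ.prod ν) -
          ∫ z, ∏ j, ten (A' j) (m j) ((naskew S φ α)^[n j] z) ∂(μ.prod ν)) +
        (∫ z, ∏ j, ten (A' j) (m j) ((naskew S φ α)^[n j] z) ∂(μ.prod ν) -
          ∏ j, ∫ z, ten (A j) (m j) z ∂(μ.prod ν))‖ := by
        congr 1
        ring
    _ ≤ ‖∫ z, ∏ j, ten (A j) (m j) ((naskew S φ α)^[n j] z) ∂(μ.prod ν) -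
          ∫ z, ∏ j, ten (A' j) (m j) ((naskew S φ α)^[n j] z) ∂(μ.prod ν)‖ +
        ‖∫ z, ∏ j, ten (A' j) (m j) ((naskew S φ α)^[n j] z) ∂(μ.prod ν) -
          ∏ j, ∫ z, ten (A j) (m j) z ∂(μ.prod ν)‖ := norm_add_le _ _
    _ < ε := by linarith

end H567MM
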