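import Pool.Agent.H567R2.MOF.M3
import Pool.Agent.H567R2.MQ.Defs

/-! NU: the field generated by a family of cosets. -/

namespace H567MM

open MeasureTheory Filter Topology

/-- finite sets together with an element of their span -/
abbrev NUq_auxP (R M : Type*) [CommRing R] [AddCommGroup M] [Module R M] : Type _ :=
  {p : Finset M × M // p.2 ∈ Submodule.span R (p.1 : Set M)}

theorem NUq_aux_mem {R M : Type*} [CommRing R] [AddCommGroup M] [Module R M]
    (L : Submodule R M) (T : Set M) (m : M) : m ∈ L ⊔ Submodule.span R T ↔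
      ∃ p : NUq_auxP R M, (∀ j ∈ p.1.1, j ∈ T) ∧ m - p.1.2 ∈ L := by
  constructor
  · intro h
    obtain ⟨y, hy, z, hz, rfl⟩ := Submodule.mem_sup.1 h
    obtain ⟨b, hb, hz'⟩ := Submodule.mem_span_finite_of_mem_span hz
    refine ⟨⟨(b, z), hz'⟩, fun j hj => hb hj, ?_⟩
    simpa using hy
  · rintro ⟨⟨⟨b, v⟩, hv⟩, hb, hm⟩
    simp only at hv hb hm
    have h1 : v ∈ Submodule.span R T := Submodule.span_mono (fun j hj => hb j hj) hv
    have h2 := Submodule.add_mem_sup hm h1
    rwa [sub_add_cancel] at h2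

/-- the combinations with given coefficients -/
def NUq_auxC {X R M : Type*} [CommRing R] [AddCommGroup M] [Module R M]
    (L : X → Submodule R M) (B : M → Set X) {b : Finset M} (r : b → R) (m : M) : Set X :=
  {x | ∃ c : b → M, (∀ j, x ∈ B (c j)) ∧ m - ∑ j, r j • c j ∈ L x}

section

variable {X R M : Type*} [MeasurableSpace X] [CommRing R] [AddCommGroup M] [Module R M]
  [Countable M] {L : X → Submodule R M} {B : M → Set X} {b : Finset M} (r : b → R)

theorem NUq_aux_meas (hL : ∀ m : M, MeasurableSet {x | m ∈ L x})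
    (hB : ∀ m, MeasurableSet (B m)) (m : M) : MeasurableSet (NUq_auxC L B r m) := by
  have h : NUq_auxC L B r m = ⋃ c : b → M, (⋂ j, B (c j)) ∩ {x | m - ∑ j, r j • c j ∈ L x} := by
    ext x
    simp only [NUq_auxC, Set.mem_setOf_eq, Set.mem_iUnion, Set.mem_inter_iff, Set.mem_iInter]
  rw [h]
  exact MeasurableSet.iUnion fun c => (MeasurableSet.iInter fun j => hB _).inter (hL _)

omit [MeasurableSpace X] [Countable M] in
theorem NUq_aux_cong (x : X) (m m' : M) (h : m - m' ∈ L x) (hx : x ∈ NUq_auxC L B r m) :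
    x ∈ NUq_auxC L B r m' := by
  obtain ⟨c, h1, h2⟩ := hx
  refine ⟨c, h1, ?_⟩
  have h3 := (L x).sub_mem h2 h
  have e : m - ∑ j, r j • c j - (m - m') = m' - ∑ j, r j • c j := by abel
  rwa [e] at h3

omit [MeasurableSpace X] [Countable M] in
theorem NUq_aux_equiv (S : X → X) (φ : X → (M ≃ₗ[R] M)) (x : X)
    (h1 : (L (S x)).map (φ x : M →ₗ[R] M) = L x)
    (h2 : ∀ m, (x ∈ B (φ x m) ↔ S x ∈ B m)) (m : M) :
    x ∈ NUq_auxC L B r (φ x m) ↔ S x ∈ NUq_auxC L B r m := by
  have h3 : ∀ v, φ x v ∈ L x ↔ v ∈ L (S x) := by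
    intro v
    rw [← h1, Submodule.mem_map]
    constructor
    · rintro ⟨w, hw, hw'⟩
      have : w = v := (φ x).injective hw'
      rwa [← this]
    · intro hv
      exact ⟨v, hv, rfl⟩
  constructor
  · rintro ⟨c, h4, h5⟩
    refine ⟨fun j => (φ x).symm (c j), fun j => ?_, ?_⟩
    · rw [← h2, LinearEquiv.apply_symm_apply]
      exact h4 j
    · rw [← h3, map_sub, map_sum]
      simp only [map_smul, LinearEquiv.apply_symm_apply]
      exact h5
  · rintro ⟨c, h4, h5⟩
    refine ⟨fun j => φ x (c j), fun j => (h2 _).2 (h4 j), ?_⟩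
    rw [← h3, map_sub, map_sum] at h5
    simp only [map_smul] at h5
    exact h5

omit [MeasurableSpace X] [Countable M] in
open Classical in
theorem NUq_aux_fin (x : X) (f : ℕ) (Z : Finset M) (hZ : Z.card ≤ f)
    (h : ∀ m, x ∈ B m → ∃ z ∈ Z, m - z ∈ L x) :
    ∃ Z' : Finset M, Z'.card ≤ f ^ b.card ∧
      ∀ m, x ∈ NUq_auxC L B r m → ∃ z ∈ Z', m - z ∈ L x := by
  refine ⟨(Finset.univ : Finset (b → Z)).image (fun g => ∑ j, r j • (g j : M)), ?_, ?_⟩
  · refine Finset.card_image_le.trans ?_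
    rw [Finset.card_univ, Fintype.card_fun, Fintype.card_coe, Fintype.card_coe]
    exact Nat.pow_le_pow_left hZ _
  · rintro m ⟨c, h1, h2⟩
    choose g hg hg' using fun j => h (c j) (h1 j)
    refine ⟨∑ j, r j • g j, ?_, ?_⟩
    · rw [Finset.mem_image]
      exact ⟨fun j => ⟨g j, hg j⟩, Finset.mem_univ _, rfl⟩
    · have h3 : ∑ j, r j • (c j - g j) ∈ L x :=
        Submodule.sum_mem _ fun j _ => Submodule.smul_mem _ _ (hg' j)
      have h4 := (L x).add_mem h2 h3
      have e : m - ∑ j, r j • c j + ∑ j, r j • (c j - g j) = m - ∑ j, r j • g j := by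
        simp only [smul_sub, Finset.sum_sub_distrib]
        abel
      rwa [e] at h4

end

theorem nstep_fld {X R M : Type*} [MeasurableSpace X] (μ : Measure X)
    [IsProbabilityMeasure μ] (S : X → X) (hS : MeasurePreserving S μ μ)
    [CommRing R] [IsNoetherianRing R] [AddCommGroup M] [Module R M] [Module.Finite R M]
    [Countable M] (φ : X → (M ≃ₗ[R] M)) (hφ : ∀ m m' : M, MeasurableSet {x | φ x m = m'})
    (L : X → Submodule R M) (hL : IsFld μ S φ L) (B : M → Set X) (f : ℕ)
    (hB : CFam μ S φ L B f) :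
    IsFld μ S φ (fun x => L x ⊔ Submodule.span R {m | x ∈ B m}) ∧
    ∀ (m : M) (ε : ℝ), 0 < ε → ∃ (B' : M → Set X) (f' : ℕ), CFam μ S φ L B' f' ∧
      μ.real {x | m ∈ L x ⊔ Submodule.span R {m | x ∈ B m} ∧ x ∉ B' m} < ε := by
  classical
  obtain ⟨hLm, hLe⟩ := hL
  obtain ⟨hB1, hB2, hB3, hB4⟩ := hB
  -- the pieces
  set D : M → NUq_auxP R M → Set X := fun m p => (⋂ j : p.1.1, B j.1) ∩ {x | m - p.1.2 ∈ L x}
    with hD
  have hDm : ∀ m p, MeasurableSet (D m p) := fun m p =>
    (MeasurableSet.iInter fun j => hB1 _).inter (hLm _)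
  have hUn : ∀ m, {x | m ∈ L x ⊔ Submodule.span R {m | x ∈ B m}} = ⋃ p, D m p := by
    intro m
    ext x
    rw [Set.mem_setOf_eq, NUq_aux_mem, Set.mem_iUnion]
    refine exists_congr fun p => ?_
    simp only [hD, Set.mem_inter_iff, Set.mem_iInter, Set.mem_setOf_eq, Subtype.forall]
  have hmeas : ∀ m, MeasurableSet {x | m ∈ L x ⊔ Submodule.span R {m | x ∈ B m}} := by
    intro m
    rw [hUn]
    exact MeasurableSet.iUnion fun p => hDm m p
  refine ⟨⟨hmeas, ?_⟩, ?_⟩
  · filter_upwards [hLe, hB3] with x h1 h2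
    rw [Submodule.map_sup, h1, Submodule.map_span]
    congr 2
    ext m
    constructor
    · rintro ⟨m', hm', rfl⟩
      exact (h2 m').2 hm'
    · intro hm
      refine ⟨(φ x).symm m, ?_, LinearEquiv.apply_symm_apply _ _⟩
      have h3 := h2 ((φ x).symm m)
      rw [LinearEquiv.apply_symm_apply] at h3
      exact h3.1 hm
  · intro m ε hε
    have hne : Nonempty (NUq_auxP R M) := ⟨⟨(∅, 0), Submodule.zero_mem _⟩⟩
    obtain ⟨e, he⟩ := exists_surjective_nat (NUq_auxP R M)
    -- coefficients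
    have hr : ∀ p : NUq_auxP R M, ∃ r : p.1.1 → R, ∑ j, r j • (j : M) = p.1.2 := by
      intro p
      obtain ⟨g, -, hg⟩ := Submodule.mem_span_finset.1 p.2
      refine ⟨fun j => g j, ?_⟩
      rw [← hg]
      exact Finset.sum_coe_sort p.1.1 (fun j => g j • j)
    choose r hr using hr
    have hDC : ∀ p, D m p ⊆ NUq_auxC L B (r p) m := by
      rintro p x ⟨h1, h2⟩
      refine ⟨fun j => j, fun j => Set.mem_iInter.1 h1 j, ?_⟩
      rw [hr]
      exact h2
    -- the limit
    set F : ℕ → Set X := fun n =>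
      {x | m ∈ L x ⊔ Submodule.span R {m | x ∈ B m}} \ ⋃ i ∈ Finset.range n, D m (e i) with hF
    have hFm : ∀ n, MeasurableSet (F n) := fun n =>
      (hmeas m).diff (Finset.measurableSet_biUnion _ fun i _ => hDm m (e i))
    have hFa : Antitone F := by
      intro n n' hn
      refine Set.sdiff_subset_sdiff_right ?_
      intro x hx
      simp only [Set.mem_iUnion, Finset.mem_range] at hx ⊢
      obtain ⟨i, hi, hx⟩ := hx
      exact ⟨i, by omega, hx⟩
    have hFi : ⋂ n, F n = ∅ := by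
      rw [Set.eq_empty_iff_forall_notMem]
      intro x hx
      rw [Set.mem_iInter] at hx
      have h1 := (hx 0).1
      rw [hUn, Set.mem_iUnion] at h1
      obtain ⟨p, hp⟩ := h1
      obtain ⟨i, rfl⟩ := he p
      apply (hx (i + 1)).2
      simp only [Set.mem_iUnion, Finset.mem_range]
      exact ⟨i, by omega, hp⟩
    have hlim := tendsto_measure_iInter_atTop (μ := μ) (fun n => (hFm n).nullMeasurableSet) hFa
      ⟨0, measure_ne_top _ _⟩
    rw [hFi, measure_empty] at hlim
    obtain ⟨n, hn⟩ := ((tendsto_order.1 hlim).2 (ENNReal.ofReal ε)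
      (ENNReal.ofReal_pos.2 hε)).exists
    refine ⟨fun m' => ⋃ i ∈ Finset.range n, NUq_auxC L B (r (e i)) m',
      ∑ i ∈ Finset.range n, f ^ (e i).1.1.card, ⟨?_, ?_, ?_, ?_⟩, ?_⟩
    · intro m'
      exact Finset.measurableSet_biUnion _ fun i _ => NUq_aux_meas (r (e i)) hLm hB1 m'
    · refine Eventually.of_forall fun x m₁ m₂ h => ?_
      simp only [Set.mem_iUnion]
      refine exists_congr fun i => exists_congr fun _ => ?_
      refine ⟨NUq_aux_cong (r (e i)) x m₁ m₂ h, NUq_aux_cong (r (e i)) x m₂ m₁ ?_⟩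
      rw [← neg_sub]
      exact (L x).neg_mem h
    · filter_upwards [hLe, hB3] with x h1 h2
      intro m'
      simp only [Set.mem_iUnion]
      exact exists_congr fun i => exists_congr fun _ =>
        NUq_aux_equiv (r (e i)) S φ x h1 h2 m'
    · filter_upwards [hB4] with x h1
      obtain ⟨Z, hZ, hZ'⟩ := h1
      choose Z' hZ1 hZ2 using fun i => NUq_aux_fin (b := (e i).1.1) (r (e i)) x f Z hZ hZ'
      refine ⟨(Finset.range n).biUnion Z', ?_, ?_⟩
      · exact Finset.card_biUnion_le.trans (Finset.sum_le_sum fun i _ => hZ1 i)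
      · intro m' hm'
        simp only [Set.mem_iUnion] at hm'
        obtain ⟨i, hi, hm'⟩ := hm'
        obtain ⟨z, hz, hz'⟩ := hZ2 i m' hm'
        exact ⟨z, Finset.mem_biUnion.2 ⟨i, hi, hz⟩, hz'⟩
    · have hsub : {x | m ∈ L x ⊔ Submodule.span R {m | x ∈ B m} ∧
          x ∉ ⋃ i ∈ Finset.range n, NUq_auxC L B (r (e i)) m} ⊆ F n := by
        rintro x ⟨h1, h2⟩
        refine ⟨h1, fun h3 => h2 ?_⟩
        simp only [Set.mem_iUnion] at h3 ⊢
        obtain ⟨i, hi, h3⟩ := h3
        exact ⟨i, hi, hDC _ h3⟩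
      refine lt_of_le_of_lt (measureReal_mono hsub) ?_
      rw [measureReal_def]
      exact (ENNReal.lt_ofReal_iff_toReal_lt (measure_ne_top _ _)).1 hn

end H567MM
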